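import Pool.Agent.Lib.MP_c28bf6_an.LC.Stm2

/-!
# The bordered Pfaffian is positive (MP_c28bf6_an)
-/

open Filter Topology

set_option autoImplicit false

namespace Pool.Agent.Lib.MP_c28bf6_an.LC

/-- the kernel with the point at infinity replaced by the point `y` -/
noncomputable def QBORD_K (y : ℝ) : Option ℝ → Option ℝ → ℝ
  | some a, some b => ((b - a) ^ 2)⁻¹
  | some a, none => y ^ 2 * ((y - a) ^ 2)⁻¹
  | none, some _ => -1
  | none, none => 0

/-- the weights -/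
noncomputable def QBORD_g (y : ℝ) : Option ℝ → ℝ
  | some _ => 1
  | none => y ^ 2

/-- the positions -/
noncomputable def QBORD_f (y : ℝ) : Option ℝ → ℝ
  | some x => x
  | none => y

lemma QBORD_lim (x : ℝ) :
    Tendsto (fun n : ℕ => (n : ℝ) ^ 2 * (((n : ℝ) - x) ^ 2)⁻¹) atTop (𝓝 1) := by
  have h1 : Tendsto (fun n : ℕ => x / (n : ℝ)) atTop (𝓝 0) :=
    tendsto_const_div_atTop_nhds_zero_nat x
  have h2 : Tendsto (fun n : ℕ => ((1 - x / (n : ℝ)) ^ 2)⁻¹) atTop (𝓝 (((1 - 0) ^ 2)⁻¹)) := by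
    refine Tendsto.inv₀ ((h1.const_sub 1).pow 2) ?_
    norm_num
  have h3 : (((1 : ℝ) - 0) ^ 2)⁻¹ = 1 := by norm_num
  rw [h3] at h2
  refine h2.congr' ?_
  filter_upwards [eventually_ge_atTop 1] with n hn
  have h4 : (n : ℝ) ≠ 0 := by
    have : 0 < n := hn
    positivity
  have h5 : 1 - x / (n : ℝ) = ((n : ℝ) - x) / n := by
    field_simp
  rw [h5, div_pow, inv_div, div_eq_mul_inv]

lemma QBORD_pw {R : Option ℝ → Option ℝ → Prop} {L : List ℝ} (hL : L.Pairwise (· < ·))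
    (h1 : ∀ x y : ℝ, x < y → R (some x) (some y)) (h2 : ∀ x : ℝ, R (some x) none) :
    (L.map some ++ [none]).Pairwise R := by
  rw [List.pairwise_append]
  refine ⟨?_, List.pairwise_singleton _ _, ?_⟩
  · rw [List.pairwise_map]
    exact hL.imp fun {a b} hab => h1 a b hab
  · intro u hu v hv
    rw [List.mem_singleton] at hv
    subst hv
    rw [List.mem_map] at hu
    obtain ⟨x, -, rfl⟩ := hu
    exact h2 x

lemma QBORD_id (y : ℝ) {L : List ℝ} (hL : L.Pairwise (· < ·)) :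
    pf (QBORD_K y) (L.map some ++ [none]) =
      y ^ 2 * pf (fun a b : ℝ => ((b - a) ^ 2)⁻¹) (L ++ [y]) := by
  obtain ⟨hA, hB, hC⟩ := p_ALG
  have h1 := hA (Option ℝ) (QBORD_K y) (fun u v => QBORD_g y u * QBORD_g y v *
    (fun u v : Option ℝ => (fun a b : ℝ => ((b - a) ^ 2)⁻¹) (QBORD_f y u) (QBORD_f y v)) u v)
    (L.map some ++ [none]) (QBORD_pw hL
      (fun x x' _ => by simp only [QBORD_K, QBORD_g, QBORD_f]; ring)
      (fun x => by simp only [QBORD_K, QBORD_g, QBORD_f]; ring))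
  have h2 := hC (Option ℝ) (QBORD_g y)
    (fun u v : Option ℝ => (fun a b : ℝ => ((b - a) ^ 2)⁻¹) (QBORD_f y u) (QBORD_f y v))
    (L.map some ++ [none])
  have h3 := hB ℝ (Option ℝ) (QBORD_f y) (fun a b : ℝ => ((b - a) ^ 2)⁻¹) (L.map some ++ [none])
  have h4 : (L.map some ++ [none]).map (QBORD_f y) = L ++ [y] := by
    rw [List.map_append, List.map_map]
    have h5 : QBORD_f y ∘ some = id := rfl
    rw [h5, List.map_id]
    rfl
  have h6 : ((L.map some ++ [none]).map (QBORD_g y)).prod = y ^ 2 := by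
    rw [List.map_append, List.map_map, List.prod_append]
    have h7 : QBORD_g y ∘ some = fun _ => (1 : ℝ) := rfl
    rw [h7, List.map_const', List.prod_replicate, one_pow, one_mul]
    simp [QBORD_g]
  rw [h1, h2, ← h3, h4, h6]

theorem q_BORD (h : Q_PL) : Q_BORD := by
  intro l a hl hev
  obtain ⟨ε, hε, hlow⟩ := h l a hl hev
  have h1 : Tendsto (fun n : ℕ => pf (QBORD_K (n : ℝ)) ((l ++ [a]).map some ++ [none])) atTop
      (𝓝 (pf KB ((l ++ [a]).map some ++ [none]))) := by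
    refine p_TK (Option ℝ) (fun n : ℕ => QBORD_K (n : ℝ)) KB _ (QBORD_pw hl ?_ ?_)
    · intro x y _
      exact tendsto_const_nhds
    · intro x
      exact QBORD_lim x
  have h2 : Tendsto (fun n : ℕ => ε * ((n : ℝ) ^ 2 * (((n : ℝ) - a) ^ 2)⁻¹)) atTop (𝓝 (ε * 1)) :=
    (QBORD_lim a).const_mul ε
  have h3 : ε * 1 ≤ pf KB ((l ++ [a]).map some ++ [none]) := by
    refine le_of_tendsto_of_tendsto h2 h1 ?_
    filter_upwards [eventually_ge_atTop (⌈a + 1⌉₊)] with n hn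
    have h4 : a + 1 ≤ (n : ℝ) := Nat.ceil_le.1 hn
    have h5 := hlow (n : ℝ) h4
    rw [QBORD_id (n : ℝ) hl]
    have h6 : l ++ [a] ++ [(n : ℝ)] = l ++ [a, (n : ℝ)] := by simp
    rw [h6]
    have h7 : (0 : ℝ) ≤ (n : ℝ) ^ 2 := by positivity
    calc ε * ((n : ℝ) ^ 2 * (((n : ℝ) - a) ^ 2)⁻¹)
        = (n : ℝ) ^ 2 * (ε / ((n : ℝ) - a) ^ 2) := by rw [div_eq_mul_inv]; ring
      _ ≤ _ := mul_le_mul_of_nonneg_left h5 h7
  linarith

end Pool.Agent.Lib.MP_c28bf6_an.LC
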