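import Pool.Agent.Lib.MP_c28bf6_an.LC.Stm2

/-!
# Charges on a circle are not in equilibrium
-/

set_option autoImplicit false

namespace Pool.Agent.Lib.MP_c28bf6_an.LC

/-- **[CST]** -/
theorem q_CST (h : Q_CSUM) : Q_CST := by
  classical
  intro E _ _ ι _ X hX hconc hcard w hw
  obtain ⟨k⟩ : Nonempty ι := Fintype.card_pos_iff.1 (by omega)
  obtain ⟨s, g, -, hg, hinj, hval⟩ := t_LDAT E ι X k hX hconc
  have hpos : ∀ j, j ≠ k → 0 < g (s j) := by
    intro j hj
    rw [hg j hj, inv_pos, norm_pos_iff, sub_ne_zero]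
    exact fun h => hj (hX h)
  have hmem : ∀ i : ι, i ∈ (Finset.univ : Finset ι).erase k ↔ i ≠ k := fun i => by simp
  have hv := h ι s (fun j => if j = k then 0 else w j * g (s j)) (Finset.univ.erase k)
    (fun i hi j hj hij => hinj i j ((hmem i).1 hi) ((hmem j).1 hj) hij)
    (fun i hi => by
      have hik : i = k := by
        by_contra hne
        exact hi ((hmem i).2 hne)
      exact if_pos hik)
    (fun i hi => by
      rw [← Finset.add_sum_erase Finset.univ _ (Finset.mem_univ k), if_pos rfl, zero_mul,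
        zero_add, ← hval w hw i ((hmem i).1 hi)]
      refine Finset.sum_congr rfl fun j hj => ?_
      rw [if_neg ((hmem j).1 hj)])
    (by
      obtain ⟨c, R, hcR⟩ := hconc.1
      have h1 := p_RAD E ι X c R (fun i => by
        rw [← dist_eq_norm]
        exact hcR _ ⟨i, rfl⟩) w hw k
      rw [← Finset.add_sum_erase Finset.univ _ (Finset.mem_univ k), if_pos rfl, zero_add]
      rw [← Finset.add_sum_erase Finset.univ _ (Finset.mem_univ k), sub_self, norm_zero, inv_zero,
        mul_zero, zero_add] at h1
      rw [← h1]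
      refine Finset.sum_congr rfl fun j hj => ?_
      rw [if_neg ((hmem j).1 hj), hg j ((hmem j).1 hj)])
  have hz : ∀ j, j ≠ k → w j = 0 := by
    intro j hj
    have h2 := hv j
    simp only [if_neg hj] at h2
    exact (mul_eq_zero.1 h2).resolve_right (hpos j hj).ne'
  obtain ⟨i, hik⟩ := Fintype.exists_ne_of_one_lt_card (by omega : 1 < Fintype.card ι) k
  have h3 := hw i
  rw [← Finset.add_sum_erase Finset.univ _ (Finset.mem_univ k),
    Finset.sum_eq_zero (fun j hj => by rw [hz j ((hmem j).1 hj), zero_smul]), add_zero] at h3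
  have h4 : w k = 0 := by
    refine (smul_eq_zero.1 h3).resolve_right (force_ne_zero ?_)
    rw [sub_ne_zero]
    exact fun h => hik (hX h).symm
  intro j
  by_cases hj : j = k
  · rw [hj]
    exact h4
  · exact hz j hj

end Pool.Agent.Lib.MP_c28bf6_an.LC
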