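import Pool.Agent.Lib.MP_c28bf6_an.LC.Stm2

/-!
# LQ, piece CSUM: charges in equilibrium on a line with sum zero vanish
-/

set_option autoImplicit false

namespace Pool.Agent.Lib.MP_c28bf6_an.LC

/-- the kernel `phi (s j - s i)` with an additional point -/
noncomputable def QCSUM_K {ι : Type} (s : ι → ℝ) : Option ι → Option ι → ℝ
  | some i, some j => phi (s j - s i)
  | some _, none => 1
  | none, some _ => -1
  | none, none => 0

/-- the charges on `Option ι` -/
noncomputable def QCSUM_c {ι : Type} (w : ι → ℝ) : Option ι → ℝ
  | some i => w i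
  | none => 0

theorem QCSUM_anti {ι : Type} (s : ι → ℝ) (a b : Option ι) :
    QCSUM_K s a b = -QCSUM_K s b a := by
  rcases a with _ | a <;> rcases b with _ | b
  · show (0 : ℝ) = -0
    rw [neg_zero]
  · rfl
  · show (1 : ℝ) = - -1
    rw [neg_neg]
  · show phi (s b - s a) = -phi (s a - s b)
    rw [← phi_neg, neg_sub]

theorem QCSUM_pos (h : Q_BORD) {ι : Type} (s : ι → ℝ) (l : List ι)
    (hl : l.Pairwise (fun i j => s i < s j)) (ho : Odd l.length) :
    0 < pf (QCSUM_K s) (l.map some ++ [none]) := by
  have e1 : pf (QCSUM_K s) (l.map some ++ [none]) =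
      pf (fun x y => KB (Option.map s x) (Option.map s y)) (l.map some ++ [none]) := by
    apply p_ALG.1
    rw [List.pairwise_append]
    refine ⟨?_, List.pairwise_singleton _ _, ?_⟩
    · rw [List.pairwise_map]
      refine hl.imp ?_
      intro a b hab
      show phi (s b - s a) = ((s b - s a) ^ 2)⁻¹
      rw [phi_of_pos (by linarith), one_div]
    · intro x hx y hy
      rw [List.mem_singleton] at hy
      obtain ⟨i, _, rfl⟩ := List.mem_map.1 hx
      rw [hy]
      rfl
  have e2 := p_ALG.2.1 (Option ℝ) (Option ι) (Option.map s) KB (l.map some ++ [none])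
  have e3 : (l.map some ++ [none]).map (Option.map s) = (l.map s).map some ++ [none] := by
    rw [List.map_append, List.map_map, List.map_map]
    rfl
  rw [e1, ← e2, e3]
  have hne : l.map s ≠ [] := by
    intro h0
    rw [List.map_eq_nil_iff] at h0
    rw [h0] at ho
    simp at ho
  obtain ⟨l', a, hla⟩ : ∃ (l' : List ℝ) (a : ℝ), l.map s = l' ++ [a] :=
    ⟨(l.map s).dropLast, (l.map s).getLast hne, (List.dropLast_append_getLast hne).symm⟩
  rw [hla]
  apply h
  · rw [← hla, List.pairwise_map]
    exact hl
  · have h1 : (l.map s).length = l'.length + 1 := by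
      rw [hla, List.length_append, List.length_singleton]
    rw [List.length_map] at h1
    rw [h1, Nat.odd_add_one, Nat.not_odd_iff_even] at ho
    exact ho

theorem q_CSUM (h : Q_BORD) : Q_CSUM := by
  intro ι _ _ s w T hinj hw heq hsum i
  rcases Nat.even_or_odd T.card with hT | hT
  · exact (t_LKER ι s w T hinj hw heq).1 hT i
  · by_cases hi : i ∈ T
    · obtain ⟨l, _, hmem, hlen, hpair⟩ := p_SORT ι s T hinj
      have hpos := QCSUM_pos h s l hpair (by rw [hlen]; exact hT)
      obtain ⟨l1, l2, rfl⟩ := List.append_of_mem ((hmem i).2 hi)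
      have hx : ∀ x ∈ l1.map some ++ (l2.map some ++ [none]),
          ∑ j, QCSUM_c w j * QCSUM_K s x j = 0 := by
        intro x hx
        rw [Fintype.sum_option]
        have h0 : QCSUM_c w none * QCSUM_K s x none = 0 := by
          show (0 : ℝ) * _ = 0
          rw [zero_mul]
        rw [h0, zero_add]
        have hsome : ∀ k, k ∈ l1 ++ i :: l2 →
            ∑ j, QCSUM_c w (some j) * QCSUM_K s (some k) (some j) = 0 := fun k hk =>
          heq k ((hmem k).1 hk)
        rcases List.mem_append.1 hx with h1 | h1
        · obtain ⟨k, hk, rfl⟩ := List.mem_map.1 h1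
          exact hsome k (List.mem_append_left _ hk)
        · rcases List.mem_append.1 h1 with h2 | h2
          · obtain ⟨k, hk, rfl⟩ := List.mem_map.1 h2
            exact hsome k (List.mem_append_right _ (List.mem_cons_of_mem _ hk))
          · rw [List.mem_singleton] at h2
            subst h2
            show ∑ j, w j * (-1 : ℝ) = 0
            rw [← Finset.sum_mul, hsum, zero_mul]
      have hslc := t_SLC.2.2.2 (Option ι) (QCSUM_K s) (QCSUM_c w) (l1.map some)
        (l2.map some ++ [none]) (QCSUM_anti s) hx
      rw [Fintype.sum_option] at hslc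
      have h0 : QCSUM_c w none *
          pf (QCSUM_K s) (l1.map some ++ none :: (l2.map some ++ [none])) = 0 := by
        show (0 : ℝ) * _ = 0
        rw [zero_mul]
      rw [h0, zero_add, Finset.sum_eq_single i] at hslc
      · have e : l1.map some ++ some i :: (l2.map some ++ [none]) =
            (l1 ++ i :: l2).map some ++ [none] := by
          rw [List.map_append, List.map_cons, List.append_assoc, List.cons_append]
        rw [e] at hslc
        rcases mul_eq_zero.1 hslc with h1 | h1
        · exact h1
        · exact absurd h1 hpos.ne'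
      · intro j _ hj
        by_cases hj1 : j ∈ l1 ∨ j ∈ l2
        · rw [p_ALT (Option ι) _ (l1.map some) (l2.map some ++ [none]) (some j) (QCSUM_anti s)
            (by
              rcases hj1 with h1 | h1
              · exact Or.inl (List.mem_map.2 ⟨j, h1, rfl⟩)
              · exact Or.inr (List.mem_append_left _ (List.mem_map.2 ⟨j, h1, rfl⟩))), mul_zero]
        · have hwj : w j = 0 := by
            apply hw j
            intro hjT
            rcases List.mem_append.1 ((hmem j).2 hjT) with h1 | h1
            · exact hj1 (Or.inl h1)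
            · rcases List.mem_cons.1 h1 with h1 | h1
              · exact hj h1
              · exact hj1 (Or.inr h1)
          show w j * _ = 0
          rw [hwj, zero_mul]
      · intro h1
        exact absurd (Finset.mem_univ i) h1
    · exact hw i hi

end Pool.Agent.Lib.MP_c28bf6_an.LC
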