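import Pool.Agent.Lib.MP_c28bf6_an.LC.Stm2

/-!
# Lines and circles, piece EXZ: shift invariant spaces for odd `n`
-/

set_option autoImplicit false

namespace Pool.Agent.Lib.MP_c28bf6_an.LC

lemma QEXZ_shift (n : ℕ) [NeZero n] (W : Submodule ℝ (ZMod n → ℝ))
    (h : ∀ w ∈ W, (fun j => w (j + 1)) ∈ W) (w : ZMod n → ℝ) (hw : w ∈ W) (k : ℕ) :
    (fun j => w (j + (k : ZMod n))) ∈ W := by
  induction k with
  | zero => simpa using hw
  | succ k ih =>
    have h1 := h _ ih
    have h2 : (fun j => w (j + ((k + 1 : ℕ) : ZMod n))) =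
        fun j => (fun i => w (i + (k : ZMod n))) (j + 1) := by
      funext j
      show w (j + ((k + 1 : ℕ) : ZMod n)) = w (j + 1 + (k : ZMod n))
      congr 1
      push_cast
      ring
    rw [h2]
    exact h1

lemma QEXZ_shift' (n : ℕ) [NeZero n] (W : Submodule ℝ (ZMod n → ℝ))
    (h : ∀ w ∈ W, (fun j => w (j + 1)) ∈ W) (w : ZMod n → ℝ) (hw : w ∈ W) (r : ZMod n) :
    (fun j => w (j + r)) ∈ W := by
  have h1 := QEXZ_shift n W h w hw r.val
  rwa [ZMod.natCast_zmod_val] at h1

theorem q_EXZ : Q_EXZ := by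
  intro E _ _ n _ W X hS
  have hsh := QEXZ_shift' n W hS.shift
  refine ⟨hsh, fun hn hW => ⟨fun a => ?_, ?_⟩⟩
  · by_contra hno
    push Not at hno
    have h0 : ∀ w ∈ W, w 0 = 0 → w = 0 := by
      intro w hw hw0
      by_contra hne
      have h1 := hsh w hw (-a)
      refine hno _ h1 ?_ ?_
      · intro h2
        apply hne
        funext j
        have h3 := congrFun h2 (j + a)
        simpa using h3
      · show w (a + -a) = 0
        rw [add_neg_cancel]
        exact hw0
    have h1 := p_RHO n W hS.shift hS.sum h0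
    obtain ⟨w, hw, hne⟩ := hW
    exact hne (h0 w hw (LINE_alt n hn w (h1 w hw)))
  · intro a b ρ hρ
    have h1 : ∀ w ∈ W, ∀ j, w (j + (b - a)) = ρ * w j := by
      intro w hw j
      have h2 := hρ _ (hsh w hw (j - a))
      have e1 : b + (j - a) = j + (b - a) := by ring
      have e2 : a + (j - a) = j := by ring
      simp only [e1, e2] at h2
      exact h2
    have h3 : ∀ w ∈ W, ∀ j, ∀ k : ℕ, w (j + (k : ZMod n) * (b - a)) = ρ ^ k * w j := by
      intro w hw j k
      induction k with
      | zero => simp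
      | succ k ih =>
        have e : j + ((k + 1 : ℕ) : ZMod n) * (b - a) = j + (k : ZMod n) * (b - a) + (b - a) := by
          push_cast
          ring
        rw [e, h1 w hw, ih, pow_succ]
        ring
    obtain ⟨w0, hw0, hne⟩ := hW
    obtain ⟨j0, hj0⟩ : ∃ j, w0 j ≠ 0 := by
      by_contra hno
      push Not at hno
      exact hne (funext hno)
    have h4 := h3 w0 hw0 j0 n
    rw [ZMod.natCast_self, zero_mul, add_zero] at h4
    have h5 : ρ ^ n = 1 := by
      have h6 : (ρ ^ n - 1) * w0 j0 = 0 := by linarith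
      rcases mul_eq_zero.1 h6 with h7 | h7
      · linarith
      · exact absurd h7 hj0
    have h8 : ρ = 1 := by
      apply hn.strictMono_pow.injective
      show ρ ^ n = 1 ^ n
      rw [h5, one_pow]
    intro w hw j
    rw [h1 w hw, h8, one_mul]

end Pool.Agent.Lib.MP_c28bf6_an.LC
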