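import Pool.Agent.Lib.MP_c28bf6_an.LC.Stm2

/-!
# All bodies but a few on a line or on a circle: the theorem
-/

set_option autoImplicit false

namespace Pool.Agent.Lib.MP_c28bf6_an.LC

/-- at most one body off the line -/
lemma QFIN_one {E : Type} [NormedAddCommGroup E] [InnerProductSpace ℝ E] {n : ℕ}
    {m : Fin n → ℝ} {x : ℝ → E} {T : ℝ} (h : IsChoreography n m x T) (t : ℝ) (F : Finset (Fin n))
    (hF : Collinear ℝ ((fun i => body n x T i t) '' {i | i ∉ F})) (hc : F.card ≤ 1)
    (i j : Fin n) : m i = m j := by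
  rcases Nat.le_one_iff_eq_zero_or_eq_one.1 hc with h0 | h1
  · rw [Finset.card_eq_zero] at h0
    subst h0
    refine final h t (Or.inl ⟨i, hF.subset ?_⟩) i j
    rintro _ ⟨k, -, rfl⟩
    exact ⟨k, Finset.notMem_empty k, rfl⟩
  · obtain ⟨k, rfl⟩ := Finset.card_eq_one.1 h1
    refine final h t (Or.inl ⟨k, hF.subset ?_⟩) i j
    rintro _ ⟨a, ha, rfl⟩
    exact ⟨a, fun hm => ha (Finset.mem_singleton.1 hm), rfl⟩

/-- all bodies on a circle -/
lemma QFIN_circ {E : Type} [NormedAddCommGroup E] [InnerProductSpace ℝ E] {n : ℕ}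
    {m : Fin n → ℝ} {x : ℝ → E} {T : ℝ} (h : IsChoreography n m x T) (t : ℝ) (F : Finset (Fin n))
    (hF : EuclideanGeometry.Concyclic ((fun i => body n x T i t) '' {i | i ∉ F}))
    (hc : F.card ≤ 0) (i j : Fin n) : m i = m j := by
  have h0 := Nat.le_zero.1 hc
  rw [Finset.card_eq_zero] at h0
  subst h0
  refine final h t (Or.inr ?_) i j
  have e : (fun i => body n x T i t) '' {i | i ∉ (∅ : Finset (Fin n))} =
      Set.range (fun i => body n x T i t) := by
    ext y
    constructor
    · rintro ⟨k, -, rfl⟩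
      exact ⟨k, rfl⟩
    · rintro ⟨k, rfl⟩
      exact ⟨k, Finset.notMem_empty k, rfl⟩
  rw [e] at hF
  exact hF

/-- the masses are equal if all charges vanish -/
lemma QFIN_mass {k : ℕ} {m : Fin (k + 1) → ℝ}
    (hall : ∀ w ∈ Core.W (k + 1) (fun j : ZMod (k + 1) => m j), w = 0)
    (i j : Fin (k + 1)) : m i = m j := by
  have key : ∀ a b : ZMod (k + 1), m a = m b := by
    intro a b
    have h3 := hall _ (Core.diff_mem (μ := fun j : ZMod (k + 1) => m j) (a - b))
    have h4 := congrFun h3 b
    simp only [Pi.zero_apply] at h4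
    have h5 : b + (a - b) = a := by ring
    rw [h5] at h4
    linarith
  exact key i j

theorem q_FIN (h1 : Q_OC) (h2 : Q_OL) : Q_FIN := by
  intro E _ _ n m x T h t F hF i j
  by_cases h6 : n ≤ 6
  · exact h.eq_of_le_six h6 i j
  by_cases hev : Even n
  · rw [if_pos hev, if_pos hev] at hF
    rcases hF with ⟨hF, hc⟩ | ⟨hF, hc⟩
    · exact QFIN_one h t F hF hc i j
    · exact QFIN_circ h t F hF hc i j
  · rw [if_neg hev, if_neg hev] at hF
    have hodd : Odd n := Nat.not_even_iff_odd.1 hev
    obtain _ | k := n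
    · exact i.elim0
    · have hc := h.core
      have hinj : Function.Injective (fun j : ZMod (k + 1) => bodyZ k x T j t) := fun a b hab => by
        by_contra hne
        exact hc.nocol t a b hne hab
      have hsys : Sys E (k + 1) (Core.W (k + 1) (fun j : ZMod (k + 1) => m j))
          (fun j : ZMod (k + 1) => bodyZ k x T j t) :=
        ⟨hinj, fun w hw => Core.W_shift hw 1, fun w hw => Core.sum_W hw,
          fun w hw i => hc.equil_W hw t i⟩
      rcases hF with ⟨hF, hcard⟩ | ⟨hF, hcard⟩
      · exact QFIN_mass (h2 E (k + 1) _ _ hsys hodd (by omega) F hcard hF) i j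
      · rcases Nat.le_one_iff_eq_zero_or_eq_one.1 hcard with h0 | h0
        · exact QFIN_circ h t F hF h0.le i j
        · obtain ⟨a, rfl⟩ := Finset.card_eq_one.1 h0
          have e : {i : Fin (k + 1) | i ∉ ({a} : Finset (Fin (k + 1)))} = {i | i ≠ a} := by
            ext b
            simp
          rw [e] at hF
          exact QFIN_mass (h1 E (k + 1) _ _ hsys hodd a hF) i j

end Pool.Agent.Lib.MP_c28bf6_an.LC
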