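import Pool.Agent.Lib.MP_c28bf6_an.LC.Stm2

/-!
# Piece LOW: a lower bound of a truncated exponential sum
-/

open Filter Topology

set_option autoImplicit false

namespace Pool.Agent.Lib.MP_c28bf6_an.LC

theorem q_LOW : Q_LOW := by
  intro a y M N hr hM hN
  set r : ℝ := y - a with hrdef
  have hr0 : 0 < r := by linarith
  have hM0 : (0 : ℝ) < M := by linarith
  have hMr : 2 ≤ (M : ℝ) / r := by
    rw [le_div_iff₀ hr0]
    linarith
  have hMr0 : 0 < (M : ℝ) / r := by linarith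
  set T : Finset ℕ := Finset.Icc ⌈(M : ℝ) / r⌉₊ ⌊2 * ((M : ℝ) / r)⌋₊ with hT
  have hmem : ∀ k ∈ T, (M : ℝ) / r ≤ k ∧ (k : ℝ) ≤ 2 * ((M : ℝ) / r) := by
    intro k hk
    rw [hT, Finset.mem_Icc] at hk
    refine ⟨(Nat.le_ceil _).trans (by exact_mod_cast hk.1), ?_⟩
    exact (Nat.le_floor_iff (by positivity)).1 hk.2
  have hcard : (M : ℝ) / r - 1 ≤ T.card := by
    rw [hT, Nat.card_Icc]
    have h1 : 2 * ((M : ℝ) / r) < (⌊2 * ((M : ℝ) / r)⌋₊ : ℝ) + 1 := Nat.lt_floor_add_one _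
    have h2 : (⌈(M : ℝ) / r⌉₊ : ℝ) < (M : ℝ) / r + 1 := Nat.ceil_lt_add_one hMr0.le
    have h3 : ((⌊2 * ((M : ℝ) / r)⌋₊ + 1 : ℕ) : ℝ) ≤
        ((⌊2 * ((M : ℝ) / r)⌋₊ + 1 - ⌈(M : ℝ) / r⌉₊ : ℕ) : ℝ) + (⌈(M : ℝ) / r⌉₊ : ℝ) := by
      have h4 : ⌊2 * ((M : ℝ) / r)⌋₊ + 1 ≤
          (⌊2 * ((M : ℝ) / r)⌋₊ + 1 - ⌈(M : ℝ) / r⌉₊) + ⌈(M : ℝ) / r⌉₊ := by omega
      exact_mod_cast h4
    push_cast at h3
    linarith
  have hinj : Set.InjOn (fun k : ℕ => (k : ℝ) / M) (T : Set ℕ) := by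
    intro k _ l _ hkl
    have h1 : (k : ℝ) / M = (l : ℝ) / M := hkl
    have h2 : (k : ℝ) = l := by
      field_simp at h1
      exact h1
    exact_mod_cast h2
  have hsub : T.image (fun k : ℕ => (k : ℝ) / M) ⊆ (SM M N).filter (· ≤ (2 : ℝ)) := by
    intro s hs
    obtain ⟨k, hk, rfl⟩ := Finset.mem_image.1 hs
    obtain ⟨h1, h2⟩ := hmem k hk
    have h3 : (M : ℝ) / r ≤ M := by
      rw [div_le_iff₀ hr0]
      nlinarith
    refine Finset.mem_filter.2 ⟨Finset.mem_image.2 ⟨k, Finset.mem_Icc.2 ⟨?_, ?_⟩, rfl⟩, ?_⟩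
    · have h4 : (0 : ℝ) < k := by linarith
      have h5 : 0 < k := by exact_mod_cast h4
      omega
    · have h4 : (k : ℝ) ≤ ((2 * M : ℕ) : ℝ) := by
        push_cast
        linarith
      have h5 : k ≤ 2 * M := by exact_mod_cast h4
      omega
    · show (k : ℝ) / M ≤ 2
      rw [div_le_iff₀ hM0]
      linarith
  have hnn : ∀ s ∈ (SM M N).filter (· ≤ (2 : ℝ)),
      s ∉ T.image (fun k : ℕ => (k : ℝ) / M) → 0 ≤ s / M * Real.exp (s * (a - y)) := by
    intro s hs _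
    obtain ⟨k, _, rfl⟩ := Finset.mem_image.1 (Finset.mem_filter.1 hs).1
    positivity
  have hge : ∀ k ∈ T, Real.exp (-2) / (r * M) ≤
      (k : ℝ) / M / M * Real.exp ((k : ℝ) / M * (a - y)) := by
    intro k hk
    obtain ⟨h1, h2⟩ := hmem k hk
    have h3 : (1 : ℝ) / (r * M) ≤ (k : ℝ) / M / M := by
      rw [div_div, div_le_div_iff₀ (by positivity) (by positivity)]
      have h4 : (M : ℝ) ≤ k * r := by
        rw [div_le_iff₀ hr0] at h1
        exact h1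
      nlinarith
    have h4 : Real.exp (-2) ≤ Real.exp ((k : ℝ) / M * (a - y)) := by
      apply Real.exp_le_exp.2
      have h5 : (k : ℝ) / M * r ≤ 2 := by
        have h6 : (k : ℝ) * r ≤ 2 * M := by
          have h7 : (k : ℝ) * r ≤ 2 * ((M : ℝ) / r) * r := by
            apply mul_le_mul_of_nonneg_right h2 hr0.le
          have h8 : 2 * ((M : ℝ) / r) * r = 2 * M := by
            field_simp
          linarith
        rw [div_mul_eq_mul_div, div_le_iff₀ hM0]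
        linarith
      have h6 : (k : ℝ) / M * (a - y) = -((k : ℝ) / M * r) := by
        rw [hrdef]
        ring
      rw [h6]
      linarith
    calc Real.exp (-2) / (r * M) = 1 / (r * M) * Real.exp (-2) := by ring
      _ ≤ (k : ℝ) / M / M * Real.exp ((k : ℝ) / M * (a - y)) :=
        mul_le_mul h3 h4 (Real.exp_pos _).le (by positivity)
  have hsum : ∑ k ∈ T, Real.exp (-2) / (r * M) ≤
      ∑ s ∈ (SM M N).filter (· ≤ (2 : ℝ)), s / M * Real.exp (s * (a - y)) := by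
    calc ∑ k ∈ T, Real.exp (-2) / (r * M)
        ≤ ∑ k ∈ T, (k : ℝ) / M / M * Real.exp ((k : ℝ) / M * (a - y)) := Finset.sum_le_sum hge
      _ = ∑ s ∈ T.image (fun k : ℕ => (k : ℝ) / M), s / M * Real.exp (s * (a - y)) := by
        rw [Finset.sum_image hinj]
      _ ≤ _ := Finset.sum_le_sum_of_subset_of_nonneg hsub hnn
  have hlow : Real.exp (-2) / (2 * r ^ 2) ≤ ∑ k ∈ T, Real.exp (-2) / (r * M) := by
    rw [Finset.sum_const, nsmul_eq_mul]
    have h1 : (M : ℝ) / (2 * r) ≤ T.card := by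
      have h2 : (M : ℝ) / (2 * r) = (M : ℝ) / r / 2 := by
        field_simp
      rw [h2]
      linarith
    calc Real.exp (-2) / (2 * r ^ 2) = (M : ℝ) / (2 * r) * (Real.exp (-2) / (r * M)) := by
          field_simp
      _ ≤ (T.card : ℝ) * (Real.exp (-2) / (r * M)) :=
        mul_le_mul_of_nonneg_right h1 (by positivity)
  exact hlow.trans hsum

end Pool.Agent.Lib.MP_c28bf6_an.LC
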