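import Pool.Agent.Lib.MP_c28bf6_an.LC.Stm2

/-!
# Piece LST: charges on a line
-/

set_option autoImplicit false

namespace Pool.Agent.Lib.MP_c28bf6_an.LC

/-- the forces on a line -/
lemma QLST_eq (E : Type) [NormedAddCommGroup E] [InnerProductSpace ℝ E] (ι : Type) [Fintype ι]
    (X : ι → E) (s : ι → ℝ) (u : E) (hu : u ≠ 0)
    (hX : ∀ i j, X j - X i = (s j - s i) • u) (w : ι → ℝ)
    (hw : ∀ i, ∑ j, w j • force (X j - X i) = 0) (i : ι) :
    ∑ j, w j * phi (s j - s i) = 0 := by
  have h1 := hw i
  have h2 : ∑ j, w j • force (X j - X i) = (∑ j, w j * phi (s j - s i)) • force u := by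
    rw [Finset.sum_smul]
    refine Finset.sum_congr rfl fun j _ => ?_
    rw [hX i j, force_smul_phi, smul_smul]
  rw [h2] at h1
  exact (smul_eq_zero.1 h1).resolve_right (force_ne_zero hu)

theorem q_LST : Q_LST := by
  classical
  intro E _ _ ι _ X hX hcol w hw
  rcases Nat.lt_or_ge 1 (Fintype.card ι) with hn | hn
  · obtain ⟨p, u, hpu⟩ := (collinear_iff_exists_forall_eq_smul_vadd (Set.range X)).1 hcol
    have hex : ∀ j, ∃ r : ℝ, X j = r • u +ᵥ p := fun j => hpu (X j) (Set.mem_range_self j)
    choose s hs using hex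
    have hu : u ≠ 0 := by
      intro hu0
      obtain ⟨a, b, hab⟩ := Fintype.one_lt_card_iff.1 hn
      apply hab
      apply hX
      rw [hs a, hs b, hu0, smul_zero, smul_zero]
    have hinj : ∀ i j, s i = s j → i = j := by
      intro i j hij
      apply hX
      rw [hs i, hs j, hij]
    have hdiff : ∀ i j, X j - X i = (s j - s i) • u := by
      intro i j
      rw [hs i, hs j, vadd_eq_add, vadd_eq_add, sub_smul]
      abel
    have h3 := t_LKER ι s w Finset.univ (fun i _ j _ hij => hinj i j hij)
      (fun i hi => absurd (Finset.mem_univ i) hi)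
      (fun i _ => QLST_eq E ι X s u hu hdiff w hw i)
    rw [Finset.card_univ] at h3
    exact ⟨h3.1, fun ho i h0 => h3.2 ho i (Finset.mem_univ _) h0⟩
  · have hsub : Subsingleton ι := Fintype.card_le_one_iff_subsingleton.1 hn
    refine ⟨fun he i => ?_, fun _ i h0 j => ?_⟩
    · exfalso
      have hpos : 0 < Fintype.card ι := Fintype.card_pos_iff.2 ⟨i⟩
      have h1 : Fintype.card ι = 1 := by omega
      rw [h1] at he
      exact absurd he (by decide)
    · rw [Subsingleton.elim j i, h0]

end Pool.Agent.Lib.MP_c28bf6_an.LC
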