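import Pool.Agent.Lib.MP_c28bf6_an.LC.Stm2

/-!
# Piece MIR
-/

set_option autoImplicit false

namespace Pool.Agent.Lib.MP_c28bf6_an.LC

private theorem QMIR_quad (a b c x y z : ℝ) (hxy : x ≠ y) (hxz : x ≠ z) (hyz : y ≠ z)
    (hx : a * x ^ 2 + b * x + c = 0) (hy : a * y ^ 2 + b * y + c = 0)
    (hz : a * z ^ 2 + b * z + c = 0) : a = 0 ∧ b = 0 ∧ c = 0 := by
  have h1 : a * (x + y) + b = 0 := by
    have : (x - y) * (a * (x + y) + b) = 0 := by linear_combination hx - hy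
    rcases mul_eq_zero.mp this with h | h
    · exact absurd (sub_eq_zero.mp h) hxy
    · exact h
  have h2 : a * (x + z) + b = 0 := by
    have : (x - z) * (a * (x + z) + b) = 0 := by linear_combination hx - hz
    rcases mul_eq_zero.mp this with h | h
    · exact absurd (sub_eq_zero.mp h) hxz
    · exact h
  have h3 : a = 0 := by
    have : (y - z) * a = 0 := by linear_combination h1 - h2
    rcases mul_eq_zero.mp this with h | h
    · exact absurd (sub_eq_zero.mp h) hyz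
    · exact h
  have h4 : b = 0 := by rw [h3] at h1; linarith
  refine ⟨h3, h4, ?_⟩
  rw [h3, h4] at hx; linarith

theorem q_MIR : Q_MIR := by
  intro E _ _ p u P Q c t s hu hs hc hd hh hk
  set a : E := P - p with ha
  set b : E := Q - p with hb
  have hU : 0 < ‖u‖ ^ 2 := by positivity
  have key : ∀ (w : E) (r : ℝ), ‖w - r • u‖ ^ 2 = ‖w‖ ^ 2 - 2 * r * inner ℝ u w + r ^ 2 * ‖u‖ ^ 2 := by
    intro w r
    rw [@norm_sub_sq_real, inner_smul_right, norm_smul, mul_pow, Real.norm_eq_abs, sq_abs,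
      real_inner_comm]
    ring
  have hq : ∀ i, ((1 - c ^ 2) * ‖u‖ ^ 2) * (s i) ^ 2 +
      (-2 * (inner ℝ u a - c ^ 2 * inner ℝ u b)) * s i + (‖a‖ ^ 2 - c ^ 2 * ‖b‖ ^ 2) = 0 := by
    intro i
    have h1 := hd i
    have e1 : P - (p + s i • u) = a - s i • u := by rw [ha]; abel
    have e2 : Q - (p + s i • u) = b - s i • u := by rw [hb]; abel
    rw [e1, e2] at h1
    have h2 : ‖a - s i • u‖ ^ 2 = c ^ 2 * ‖b - s i • u‖ ^ 2 := by rw [h1, mul_pow]
    rw [key, key] at h2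
    linear_combination h2
  have n01 : s 0 ≠ s 1 := fun h => by simpa using hs h
  have n02 : s 0 ≠ s 2 := fun h => by simpa using hs h
  have n12 : s 1 ≠ s 2 := fun h => by simpa using hs h
  obtain ⟨g1, g2, g3⟩ := QMIR_quad _ _ _ (s 0) (s 1) (s 2) n01 n02 n12 (hq 0) (hq 1) (hq 2)
  have hc2 : c ^ 2 = 1 := by
    rcases mul_eq_zero.mp g1 with h | h
    · linarith
    · exact absurd h hU.ne'
  have hα : inner ℝ u a = inner ℝ u b := by rw [hc2] at g2; linarith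
  have hA : ‖a‖ ^ 2 = ‖b‖ ^ 2 := by rw [hc2] at g3; linarith
  refine ⟨hα, ?_⟩
  have hn : ∀ w : E, ‖w - (inner ℝ u w / ‖u‖ ^ 2) • u‖ ^ 2 =
      ‖w‖ ^ 2 - (inner ℝ u w) ^ 2 / ‖u‖ ^ 2 := by
    intro w
    rw [key]
    field_simp
    ring
  have h5 : ‖a - (inner ℝ u a / ‖u‖ ^ 2) • u‖ ^ 2 =
      t ^ 2 * ‖b - (inner ℝ u b / ‖u‖ ^ 2) • u‖ ^ 2 := by
    rw [hh, norm_smul, mul_pow, Real.norm_eq_abs, sq_abs]
  rw [hn, hn, hα, hA] at h5
  have h6 : 0 < ‖b - (inner ℝ u b / ‖u‖ ^ 2) • u‖ ^ 2 := by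
    have := norm_pos_iff.mpr hk
    positivity
  rw [hn] at h6
  have h7 : (t - 1) * (t + 1) = 0 := by
    have : ((t - 1) * (t + 1)) * (‖b‖ ^ 2 - (inner ℝ u b) ^ 2 / ‖u‖ ^ 2) = 0 := by
      linear_combination -h5
    rcases mul_eq_zero.mp this with h | h
    · exact h
    · exact absurd h h6.ne'
  rcases mul_eq_zero.mp h7 with h | h
  · left; linarith
  · right; linarith

end Pool.Agent.Lib.MP_c28bf6_an.LC
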