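import Pool.Agent.Lib.MP_c28bf6_an.LC.Stm2

/-!
# Odd number of bodies, all but at most three on a line
-/

set_option autoImplicit false

namespace Pool.Agent.Lib.MP_c28bf6_an.LC

theorem q_OL (h1 : Q_OL2) (h2 : Q_OL3) : Q_OL := by
  intro E _ _ n _ W X hS hodd hn F hF hcol
  classical
  obtain ⟨p, u, hv⟩ := (collinear_iff_exists_forall_eq_smul_vadd _).1 hcol
  have hgood : ∀ j, j ∉ F → ∃ r : ℝ, X j = p + r • u := fun j hj => by
    obtain ⟨r, hr⟩ := hv _ ⟨j, hj, rfl⟩
    exact ⟨r, by rw [hr, vadd_eq_add, add_comm]⟩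
  obtain ⟨G, hG⟩ : ∃ G : Finset (ZMod n), G = F.filter (fun j => ∀ r : ℝ, X j ≠ p + r • u) :=
    ⟨_, rfl⟩
  have hGF : G.card ≤ 3 := by
    rw [hG]
    exact (Finset.card_filter_le _ _).trans hF
  have hGn : ∀ j ∈ G, ∀ r : ℝ, X j ≠ p + r • u := fun j hj => by
    rw [hG] at hj
    exact (Finset.mem_filter.1 hj).2
  have hGs : ∀ j, j ∉ G → ∃ r : ℝ, X j = p + r • u := fun j hj => by
    by_contra hno
    push Not at hno
    by_cases hjF : j ∈ F
    · apply hj
      rw [hG]
      exact Finset.mem_filter.2 ⟨hjF, hno⟩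
    · obtain ⟨r, hr⟩ := hgood j hjF
      exact hno r hr
  choose! s hs using hGs
  have hu : u ≠ 0 := by
    intro hu0
    have hc : 1 < (Finset.univ \ G).card := by
      have h3 := Finset.card_sdiff_add_card_inter (Finset.univ : Finset (ZMod n)) G
      rw [Finset.univ_inter, Finset.card_univ, ZMod.card] at h3
      omega
    obtain ⟨a, ha, b, hb, hab⟩ := Finset.one_lt_card.1 hc
    apply hab
    apply hS.inj
    rw [hs a (Finset.mem_sdiff.1 ha).2, hs b (Finset.mem_sdiff.1 hb).2, hu0, smul_zero,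
      smul_zero]
  have hcase : G.card = 0 ∨ G.card = 1 ∨ G.card = 2 ∨ G.card = 3 := by omega
  rcases hcase with hc | hc | hc | hc
  · rw [Finset.card_eq_zero] at hc
    refine t_LINE E n W X hS.inj hS.shift hS.sum hS.eq ?_
    refine (collinear_iff_exists_forall_eq_smul_vadd _).2 ⟨p, u, ?_⟩
    rintro _ ⟨j, rfl⟩
    refine ⟨s j, ?_⟩
    rw [vadd_eq_add, add_comm]
    exact hs j (by rw [hc]; exact Finset.notMem_empty j)
  · obtain ⟨k, hk⟩ := Finset.card_eq_one.1 hc
    refine line_one E n W X hS.inj hS.shift hS.sum hS.eq k ?_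
    refine (collinear_iff_exists_forall_eq_smul_vadd _).2 ⟨p, u, ?_⟩
    rintro _ ⟨j, hj, rfl⟩
    refine ⟨s j, ?_⟩
    rw [vadd_eq_add, add_comm]
    exact hs j (by rw [hk, Finset.mem_singleton]; exact hj)
  · obtain ⟨a, b, hab, hk⟩ := Finset.card_eq_two.1 hc
    refine h1 E n W X hS hodd a b p u s hab hu ?_ ?_ ?_
    · intro j hja hjb
      exact hs j (by rw [hk, Finset.mem_insert, Finset.mem_singleton]; tauto)
    · exact hGn a (by rw [hk]; simp)
    · exact hGn b (by rw [hk]; simp)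
  · obtain ⟨a, b, c, hab, hac, hbc, hk⟩ := Finset.card_eq_three.1 hc
    refine h2 E n W X hS hodd hn a b c p u s hab hac hbc hu ?_ ?_ ?_ ?_
    · intro j hja hjb hjc
      exact hs j (by
        rw [hk, Finset.mem_insert, Finset.mem_insert, Finset.mem_singleton]; tauto)
    · exact hGn a (by rw [hk]; simp)
    · exact hGn b (by rw [hk]; simp)
    · exact hGn c (by rw [hk]; simp)

end Pool.Agent.Lib.MP_c28bf6_an.LC
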