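import Pool.Agent.Lib.MP_c28bf6_an.LC.Stm2

/-!
# MP_c28bf6_an, line and circle theorem: odd `n`, exactly two bodies off a line (`Q_OL2`)
-/

set_option autoImplicit false

namespace Pool.Agent.Lib.MP_c28bf6_an.LC

/-- in `ZMod n`, `n` odd, `x + x = 0` implies `x = 0` -/
theorem QOL2_two {n : ℕ} (hn : Odd n) (x : ZMod n) (h : x + x = 0) : x = 0 := by
  obtain ⟨k, hk⟩ := hn
  have h1 : ((n : ℕ) : ZMod n) * x = 0 := by
    rw [ZMod.natCast_self, zero_mul]
  have h2 : ((n : ℕ) : ZMod n) * x = (k : ZMod n) * (x + x) + x := by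
    have h3 : ((n : ℕ) : ZMod n) = ((2 * k + 1 : ℕ) : ZMod n) := congrArg _ hk
    rw [h3]
    push_cast
    ring
  rw [h2, h, mul_zero, zero_add] at h1
  exact h1

/-- a third index -/
theorem QOL2_third {n : ℕ} [NeZero n] (hn : Odd n) (a b : ZMod n) (hab : a ≠ b) :
    3 ≤ n ∧ ∃ i : ZMod n, i ∉ ({a, b} : Finset (ZMod n)) := by
  have h2 : 2 ≤ n := by
    by_contra h
    have h1 : n = 1 := by
      have := NeZero.ne n
      omega
    subst h1
    exact hab (Subsingleton.elim a b)
  have h3 : 3 ≤ n := by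
    obtain ⟨k, hk⟩ := hn
    omega
  refine ⟨h3, ?_⟩
  by_contra h
  have h4 : (Finset.univ : Finset (ZMod n)) ⊆ {a, b} := by
    intro i _
    by_contra hi
    exact h ⟨i, hi⟩
  have h5 := Finset.card_le_card h4
  rw [Finset.card_univ, ZMod.card, Finset.card_pair hab] at h5
  omega

/-- a point off the line has a nonzero height -/
theorem QOL2_h {E : Type} [NormedAddCommGroup E] [InnerProductSpace ℝ E] (p u P : E)
    (h : ∀ r : ℝ, P ≠ p + r • u) : (P - p) - (inner ℝ u (P - p) / ‖u‖ ^ 2) • u ≠ 0 := by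
  intro h0
  refine h (inner ℝ u (P - p) / ‖u‖ ^ 2) ?_
  rw [← sub_eq_zero.1 h0]
  abel

/-- **[OL2]** odd `n`, exactly two bodies off a line -/
theorem q_OL2 (h1 : Q_EXZ) (h2 : Q_SUB) (h3 : Q_PERP) : Q_OL2 := by
  intro E _ _ n _ W X hS hodd a b p u s hab hu hline ha hb
  by_contra hcon
  push Not at hcon
  obtain ⟨w0, hw0, hne⟩ := hcon
  obtain ⟨hsh, hE⟩ := h1 E n W X hS
  obtain ⟨hz, hper⟩ := hE hodd ⟨w0, hw0, hne⟩
  obtain ⟨hn3, i, hi⟩ := QOL2_third hodd a b hab
  have hia : a ≠ i := by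
    intro h
    exact hi (by simp [h])
  have hib : b ≠ i := by
    intro h
    exact hi (by simp [h])
  have hline' : ∀ j, j ∉ ({a, b} : Finset (ZMod n)) → X j = p + s j • u := by
    intro j hj
    simp only [Finset.mem_insert, Finset.mem_singleton, not_or] at hj
    exact hline j hj.1 hj.2
  set ha' : E := (X a - p) - (inner ℝ u (X a - p) / ‖u‖ ^ 2) • u with hha
  set hb' : E := (X b - p) - (inner ℝ u (X b - p) / ‖u‖ ^ 2) • u with hhb
  have hane : ha' ≠ 0 := QOL2_h p u (X a) ha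
  have hbne : hb' ≠ 0 := QOL2_h p u (X b) hb
  have hκa : (‖X a - X i‖ ^ 3)⁻¹ ≠ 0 := by
    apply inv_ne_zero
    apply pow_ne_zero
    rw [norm_ne_zero_iff, sub_ne_zero]
    exact fun h => hia (hS.inj h)
  have hκb : (‖X b - X i‖ ^ 3)⁻¹ ≠ 0 := by
    apply inv_ne_zero
    apply pow_ne_zero
    rw [norm_ne_zero_iff, sub_ne_zero]
    exact fun h => hib (hS.inj h)
  set κa : ℝ := (‖X a - X i‖ ^ 3)⁻¹ with hκaD
  set κb : ℝ := (‖X b - X i‖ ^ 3)⁻¹ with hκbD
  have hperp : ∀ w ∈ W, (w a * κa) • ha' + (w b * κb) • hb' = 0 := by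
    intro w hw
    have h := h3 E n W X hS {a, b} p u s hline' w hw i hi
    rw [Finset.sum_pair hab] at h
    exact h
  -- some element of `W` does not vanish at `b`
  obtain ⟨j, hj⟩ : ∃ j, w0 j ≠ 0 := by
    by_contra h
    push Not at h
    exact hne (funext h)
  have hw1 := hsh w0 hw0 (j - b)
  set w1 : ZMod n → ℝ := fun t => w0 (t + (j - b)) with hw1D
  have hw1b : w1 b ≠ 0 := by
    have e : w1 b = w0 j := by
      show w0 (b + (j - b)) = w0 j
      congr 1
      abel
    rw [e]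
    exact hj
  have hc1 : w1 b * κb ≠ 0 := mul_ne_zero hw1b hκb
  have hτ : hb' = (-(w1 a * κa) / (w1 b * κb)) • ha' := by
    have h := hperp w1 hw1
    have h' : (w1 b * κb) • hb' = (-(w1 a * κa)) • ha' := by
      rw [neg_smul]
      exact (neg_eq_of_add_eq_zero_right h).symm
    rw [div_eq_inv_mul, mul_smul, ← h', inv_smul_smul₀ hc1]
  set τ : ℝ := -(w1 a * κa) / (w1 b * κb) with hτD
  have hτ0 : τ ≠ 0 := by
    intro h
    apply hbne
    rw [hτ, h, zero_smul]
  have hrel : ∀ w ∈ W, w b = (-κa / (κb * τ)) * w a := by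
    intro w hw
    have h := hperp w hw
    rw [hτ, smul_smul, ← add_smul] at h
    have h' : w a * κa + w b * κb * τ = 0 := by
      rcases smul_eq_zero.1 h with h | h
      · exact h
      · exact absurd h hane
    field_simp
    linarith
  have hper' := hper a b _ hrel
  obtain ⟨w, hw, hwne, hwa⟩ := hz a
  have hwb : w b = 0 := by
    have h := hper' w hw a
    rw [add_sub_cancel, hwa] at h
    exact h
  have hwc : w (b + (b - a)) = 0 := by
    rw [hper' w hw b, hwb]
  have hba : b - a ≠ 0 := sub_ne_zero.2 (Ne.symm hab)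
  have hnF : b + (b - a) ∉ ({a, b} : Finset (ZMod n)) := by
    simp only [Finset.mem_insert, Finset.mem_singleton, not_or]
    constructor
    · intro h
      apply hba
      apply QOL2_two hodd
      have e : b - a + (b - a) = b + (b - a) - a := by abel
      rw [e, h, sub_self]
    · intro h
      apply hba
      have e : b - a = b + (b - a) - b := by abel
      rw [e, h, sub_self]
  have hF : ∀ k ∈ ({a, b} : Finset (ZMod n)), w k = 0 := by
    intro k hk
    simp only [Finset.mem_insert, Finset.mem_singleton] at hk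
    rcases hk with hk | hk
    · rw [hk, hwa]
    · rw [hk, hwb]
  have hcol : Collinear ℝ (X '' {k | k ∉ ({a, b} : Finset (ZMod n))}) := by
    rw [collinear_iff_exists_forall_eq_smul_vadd]
    refine ⟨p, u, ?_⟩
    rintro _ ⟨k, hk, rfl⟩
    refine ⟨s k, ?_⟩
    rw [hline' k hk, vadd_eq_add, add_comm]
  have hodd2 : Odd (n - ({a, b} : Finset (ZMod n)).card) := by
    rw [Finset.card_pair hab]
    obtain ⟨k, hk⟩ := hodd
    exact ⟨k - 1, by omega⟩
  exact hwne (((h2 E n W X hS {a, b} w hw hF).2 hcol).2 hodd2 _ hnF hwc)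

end Pool.Agent.Lib.MP_c28bf6_an.LC
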