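import Pool.Agent.Lib.MP_c28bf6_an.LC.Stm2

/-!
# Odd numbers of bodies, exactly three bodies off a line
-/

open Filter Topology

set_option autoImplicit false

namespace Pool.Agent.Lib.MP_c28bf6_an.LC

lemma QOL3_pick {ι : Type} [Fintype ι] [DecidableEq ι] (F : Finset ι)
    (h : F.card + 3 ≤ Fintype.card ι) :
    ∃ f : Fin 3 → ι, Function.Injective f ∧ ∀ i, f i ∉ F := by
  have hc : 3 ≤ (Finset.univ \ F).card := by
    rw [Finset.card_sdiff_of_subset (Finset.subset_univ F), Finset.card_univ]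
    omega
  obtain ⟨G, hG1, hG2⟩ := Finset.exists_subset_card_eq hc
  refine ⟨fun i => ((G.equivFinOfCardEq hG2).symm i : ι), ?_, ?_⟩
  · intro i j hij
    exact (G.equivFinOfCardEq hG2).symm.injective (Subtype.ext hij)
  · intro i
    have := hG1 ((G.equivFinOfCardEq hG2).symm i).2
    exact (Finset.mem_sdiff.mp this).2

lemma QOL3_claim {E : Type} [NormedAddCommGroup E] [InnerProductSpace ℝ E] (h4 : Q_MIR)
    {ι : Type} (X : ι → E) (hinj : Function.Injective X) (p u : E) (hu : u ≠ 0) (s : ι → ℝ)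
    (w : ι → ℝ) (b c : ι) (hbc : b ≠ c) (f : Fin 3 → ι) (hf : Function.Injective f)
    (hX : ∀ i, X (f i) = p + s (f i) • u) (hfb : ∀ i, f i ≠ b) (hfc : ∀ i, f i ≠ c)
    (hb0 : (X b - p) - (inner ℝ u (X b - p) / ‖u‖ ^ 2) • u ≠ 0)
    (hc0 : (X c - p) - (inner ℝ u (X c - p) / ‖u‖ ^ 2) • u ≠ 0)
    (hw : ¬ (w b = 0 ∧ w c = 0))
    (heq : ∀ i, (w b * (‖X b - X (f i)‖ ^ 3)⁻¹) •
        ((X b - p) - (inner ℝ u (X b - p) / ‖u‖ ^ 2) • u) +
      (w c * (‖X c - X (f i)‖ ^ 3)⁻¹) •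
        ((X c - p) - (inner ℝ u (X c - p) / ‖u‖ ^ 2) • u) = 0) :
    (X b - p) - (inner ℝ u (X b - p) / ‖u‖ ^ 2) • u =
      - ((X c - p) - (inner ℝ u (X c - p) / ‖u‖ ^ 2) • u) ∧
    inner ℝ u (X b - p) = inner ℝ u (X c - p) := by
  set hb := (X b - p) - (inner ℝ u (X b - p) / ‖u‖ ^ 2) • u with hbdef
  set hc := (X c - p) - (inner ℝ u (X c - p) / ‖u‖ ^ 2) • u with hcdef
  have nb : ∀ i, 0 < ‖X b - X (f i)‖ := fun i =>
    norm_pos_iff.mpr (sub_ne_zero.mpr fun e => hfb i (hinj e).symm)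
  have nc : ∀ i, 0 < ‖X c - X (f i)‖ := fun i =>
    norm_pos_iff.mpr (sub_ne_zero.mpr fun e => hfc i (hinj e).symm)
  have hwb : w b ≠ 0 := by
    intro e
    apply hw
    refine ⟨e, ?_⟩
    have h := heq 0
    rw [e, zero_mul, zero_smul, zero_add, smul_eq_zero] at h
    rcases h with h | h
    · rcases mul_eq_zero.mp h with h | h
      · exact h
      · exact absurd h (inv_ne_zero (pow_ne_zero 3 (nc 0).ne'))
    · exact absurd h hc0
  have hwc : w c ≠ 0 := by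
    intro e
    apply hw
    refine ⟨?_, e⟩
    have h := heq 0
    rw [e, zero_mul, zero_smul, add_zero, smul_eq_zero] at h
    rcases h with h | h
    · rcases mul_eq_zero.mp h with h | h
      · exact h
      · exact absurd h (inv_ne_zero (pow_ne_zero 3 (nb 0).ne'))
    · exact absurd h hb0
  -- the ratio
  have ht : ∀ i, hb = (-(w c / w b) * (‖X b - X (f i)‖ ^ 3 / ‖X c - X (f i)‖ ^ 3)) • hc := by
    intro i
    have h := heq i
    have h1 : (w b * (‖X b - X (f i)‖ ^ 3)⁻¹) • hb = (-(w c * (‖X c - X (f i)‖ ^ 3)⁻¹)) • hc := by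
      rw [neg_smul]
      exact eq_neg_of_add_eq_zero_left h
    have h2 : w b * (‖X b - X (f i)‖ ^ 3)⁻¹ ≠ 0 :=
      mul_ne_zero hwb (inv_ne_zero (pow_ne_zero 3 (nb i).ne'))
    have h3 : hb = (w b * (‖X b - X (f i)‖ ^ 3)⁻¹)⁻¹ •
        ((-(w c * (‖X c - X (f i)‖ ^ 3)⁻¹)) • hc) := by
      rw [← h1, smul_smul, inv_mul_cancel₀ h2, one_smul]
    rw [smul_smul] at h3
    have h4 : (w b * (‖X b - X (f i)‖ ^ 3)⁻¹)⁻¹ * (-(w c * (‖X c - X (f i)‖ ^ 3)⁻¹)) =
        -(w c / w b) * (‖X b - X (f i)‖ ^ 3 / ‖X c - X (f i)‖ ^ 3) := by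
      have := (nb i).ne'
      have := (nc i).ne'
      field_simp
    rw [h4] at h3
    exact h3
  have hr3 : ∀ i, ‖X b - X (f i)‖ ^ 3 / ‖X c - X (f i)‖ ^ 3 =
      ‖X b - X (f 0)‖ ^ 3 / ‖X c - X (f 0)‖ ^ 3 := by
    intro i
    have h := (ht i).symm.trans (ht 0)
    have h1 := smul_left_injective ℝ hc0 h
    have h2 : -(w c / w b) ≠ 0 := neg_ne_zero.mpr (div_ne_zero hwc hwb)
    exact mul_left_cancel₀ h2 h1
  have hr : ∀ i, ‖X b - X (f i)‖ / ‖X c - X (f i)‖ = ‖X b - X (f 0)‖ / ‖X c - X (f 0)‖ := by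
    intro i
    have h := hr3 i
    rw [← div_pow, ← div_pow] at h
    exact (pow_left_inj₀ (div_nonneg (nb i).le (nc i).le) (div_nonneg (nb 0).le (nc 0).le)
      (by norm_num)).mp h
  have hmain := h4 E p u (X b) (X c) (‖X b - X (f 0)‖ / ‖X c - X (f 0)‖)
    (-(w c / w b) * (‖X b - X (f 0)‖ ^ 3 / ‖X c - X (f 0)‖ ^ 3)) (fun i => s (f i)) hu
    (by
      intro i j hij
      have hij' : s (f i) = s (f j) := hij
      apply hf
      apply hinj
      rw [hX i, hX j, hij'])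
    (div_pos (nb 0) (nc 0))
    (by
      intro i
      rw [← hX i, ← hr i, div_mul_cancel₀ _ (nc i).ne'])
    (ht 0) hc0
  obtain ⟨hin, ht1⟩ := hmain
  refine ⟨?_, hin⟩
  have h0 := ht 0
  rcases ht1 with ht1 | ht1
  · exfalso
    rw [ht1, one_smul, hbdef, hcdef, hin] at h0
    have h5 : X b - p = X c - p := sub_left_injective h0
    exact hbc (hinj (sub_left_injective h5))
  · rw [ht1, neg_smul, one_smul] at h0
    exact h0

theorem q_OL3 (h1 : Q_EXZ) (h2 : Q_SUB) (h3 : Q_PERP) (h4 : Q_MIR) : Q_OL3 := by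
  intro E _ _ n _ W X hS hodd hn a b c p u s hab hac hbc hu hX ha hb hc
  by_contra hcon
  have hex : ∃ w ∈ W, w ≠ 0 := by
    by_contra h
    apply hcon
    intro w hw
    by_contra hw0
    exact h ⟨w, hw, hw0⟩
  obtain ⟨hz, -⟩ := (h1 E n W X hS).2 hodd hex
  -- the heights
  have hne : ∀ k : ZMod n, (∀ r : ℝ, X k ≠ p + r • u) →
      (X k - p) - (inner ℝ u (X k - p) / ‖u‖ ^ 2) • u ≠ 0 := by
    intro k hk h
    apply hk (inner ℝ u (X k - p) / ‖u‖ ^ 2)
    rw [← sub_eq_zero.mp h]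
    abel
  have ha0 := hne a ha
  have hb0 := hne b hb
  have hc0 := hne c hc
  let F : Finset (ZMod n) := {a, b, c}
  have hFcard : F.card = 3 := Finset.card_eq_three.mpr ⟨a, b, c, hab, hac, hbc, rfl⟩
  have hmem : ∀ j, j ∉ F ↔ j ≠ a ∧ j ≠ b ∧ j ≠ c := by
    intro j
    simp [F]
  have hXF : ∀ j, j ∉ F → X j = p + s j • u := by
    intro j hj
    obtain ⟨h5, h6, h7⟩ := (hmem j).mp hj
    exact hX j h5 h6 h7
  have hcol : Collinear ℝ (X '' {i | i ∉ F}) := by
    rw [collinear_iff_exists_forall_eq_smul_vadd]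
    refine ⟨p, u, ?_⟩
    rintro x ⟨j, hj, rfl⟩
    refine ⟨s j, ?_⟩
    rw [vadd_eq_add, hXF j hj, add_comm]
  have heven : Even (n - F.card) := by
    rw [hFcard]
    obtain ⟨k, hk⟩ := hodd
    exact ⟨k - 1, by omega⟩
  have hvan : ∀ w ∈ W, w a = 0 → w b = 0 → w c = 0 → w = 0 := by
    intro w hw h5 h6 h7
    refine ((h2 E n W X hS F w hw ?_).2 hcol).1 heven
    intro i hi
    simp only [F, Finset.mem_insert, Finset.mem_singleton] at hi
    rcases hi with rfl | rfl | rfl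
    · exact h5
    · exact h6
    · exact h7
  obtain ⟨f, hf, hfF⟩ := QOL3_pick F (by rw [hFcard, ZMod.card]; omega)
  have hperp : ∀ w ∈ W, ∀ i, i ∉ F →
      (w a * (‖X a - X i‖ ^ 3)⁻¹) • ((X a - p) - (inner ℝ u (X a - p) / ‖u‖ ^ 2) • u) +
      ((w b * (‖X b - X i‖ ^ 3)⁻¹) • ((X b - p) - (inner ℝ u (X b - p) / ‖u‖ ^ 2) • u) +
      (w c * (‖X c - X i‖ ^ 3)⁻¹) • ((X c - p) - (inner ℝ u (X c - p) / ‖u‖ ^ 2) • u)) = 0 := by
    intro w hw i hi
    have h := h3 E n W X hS F p u s hXF w hw i hi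
    have hna : a ∉ ({b, c} : Finset (ZMod n)) := by
      simp only [Finset.mem_insert, Finset.mem_singleton, not_or]
      exact ⟨hab, hac⟩
    have hnb : b ∉ ({c} : Finset (ZMod n)) := by
      rw [Finset.mem_singleton]
      exact hbc
    have hFe : F = insert a (insert b {c}) := rfl
    rw [hFe, Finset.sum_insert hna, Finset.sum_insert hnb, Finset.sum_singleton] at h
    exact h
  -- first claim
  obtain ⟨w, hw, hw0, hwa⟩ := hz a
  have c1 := QOL3_claim h4 X hS.inj p u hu s w b c hbc f hf (fun i => hXF _ (hfF i))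
    (fun i => ((hmem _).mp (hfF i)).2.1) (fun i => ((hmem _).mp (hfF i)).2.2) hb0 hc0
    (fun h => hw0 (hvan w hw hwa h.1 h.2))
    (by
      intro i
      have h := hperp w hw (f i) (hfF i)
      rw [hwa, zero_mul, zero_smul, zero_add] at h
      exact h)
  -- second claim
  obtain ⟨w', hw', hw0', hwb'⟩ := hz b
  have c2 := QOL3_claim h4 X hS.inj p u hu s w' a c hac f hf (fun i => hXF _ (hfF i))
    (fun i => ((hmem _).mp (hfF i)).1) (fun i => ((hmem _).mp (hfF i)).2.2) ha0 hc0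
    (fun h => hw0' (hvan w' hw' h.1 hwb' h.2))
    (by
      intro i
      have h := hperp w' hw' (f i) (hfF i)
      rw [hwb', zero_mul, zero_smul, zero_add] at h
      exact h)
  have e1 := c1.1.trans c2.1.symm
  rw [c1.2, c2.2] at e1
  have e2 : X b - p = X a - p := sub_left_injective e1
  exact hab (hS.inj (sub_left_injective e2)).symm

end Pool.Agent.Lib.MP_c28bf6_an.LC
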