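import Pool.Agent.Lib.MP_c28bf6_an.LC.Stm2

/-!
# The component orthogonal to a line (piece PERP)
-/

set_option autoImplicit false

namespace Pool.Agent.Lib.MP_c28bf6_an.LC

/-- the component orthogonal to `u` -/
private noncomputable def QPERP_pi {E : Type} [NormedAddCommGroup E] [InnerProductSpace ℝ E]
    (u : E) : E →ₗ[ℝ] E where
  toFun x := x - (inner ℝ u x / ‖u‖ ^ 2) • u
  map_add' x y := by
    rw [inner_add_right, add_div, add_smul]
    abel
  map_smul' r x := by
    rw [inner_smul_right, RingHom.id_apply, smul_sub, smul_smul, mul_div_assoc]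

private lemma QPERP_self {E : Type} [NormedAddCommGroup E] [InnerProductSpace ℝ E]
    (u : E) : QPERP_pi u u = 0 := by
  show u - (inner ℝ u u / ‖u‖ ^ 2) • u = 0
  by_cases hu : u = 0
  · rw [hu, smul_zero, sub_zero]
  · rw [real_inner_self_eq_norm_sq, div_self (pow_ne_zero 2 (norm_ne_zero_iff.2 hu)), one_smul,
      sub_self]

theorem q_PERP : Q_PERP := by
  intro E _ _ n _ W X hS F p u s hX w hw i hi
  have h0 := hS.eq w hw i
  have hline : ∀ j, j ∉ F → QPERP_pi u (X j - p) = 0 := by
    intro j hj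
    rw [hX j hj, add_sub_cancel_left, map_smul, QPERP_self, smul_zero]
  have h1 := congrArg (QPERP_pi u) h0
  rw [map_sum, map_zero] at h1
  have h2 : ∀ j, QPERP_pi u (w j • force (X j - X i)) =
      (w j * (‖X j - X i‖ ^ 3)⁻¹) • QPERP_pi u (X j - p) := by
    intro j
    have h3 : X j - X i = (X j - p) - (X i - p) := by abel
    have h4 : QPERP_pi u (X j - X i) = QPERP_pi u (X j - p) := by
      rw [h3, map_sub, hline i hi, sub_zero]
    unfold force
    rw [map_smul, map_smul, smul_smul, h4]
  rw [Finset.sum_congr rfl fun j _ => h2 j] at h1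
  have h5 : ∑ j ∈ F, (w j * (‖X j - X i‖ ^ 3)⁻¹) • QPERP_pi u (X j - p) =
      ∑ j, (w j * (‖X j - X i‖ ^ 3)⁻¹) • QPERP_pi u (X j - p) := by
    apply Finset.sum_subset (Finset.subset_univ F)
    intro j _ hj
    rw [hline j hj, smul_zero]
  exact h5.trans h1

end Pool.Agent.Lib.MP_c28bf6_an.LC
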