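import Pool.Agent.Lib.MP_c28bf6_an.LC.Stm2

/-!
# A lower bound for the Pfaffian of the inverse square with a distant last point
-/

open Filter Topology

set_option autoImplicit false

namespace Pool.Agent.Lib.MP_c28bf6_an.LC

theorem q_PL (h1 : Q_LB2) (h2 : Q_LOW) : Q_PL := by
  intro l a hl hev
  obtain ⟨δ, hδ, hlb⟩ := h1 2 l a hl hev
  obtain ⟨hA, hB, hC⟩ := p_APP
  have hpos : ∀ M N : ℕ, 1 ≤ M → ∀ s ∈ SM M N, 0 < s := by
    intro M N hM s hs
    unfold SM at hs
    rw [Finset.mem_image] at hs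
    obtain ⟨k, hk, rfl⟩ := hs
    rw [Finset.mem_Icc] at hk
    have h4 : (0 : ℝ) < k := by exact_mod_cast hk.1
    have h5 : (0 : ℝ) < M := by exact_mod_cast hM
    exact div_pos h4 h5
  let K1 : ℕ → ℝ → ℝ → ℝ := fun M a b =>
    ((M : ℝ)⁻¹) ^ 2 * (Real.exp (-((b - a) / M)) / (1 - Real.exp (-((b - a) / M))) ^ 2)
  refine ⟨δ * Real.exp (-2) / 2, by positivity, ?_⟩
  intro y hy
  have hay : a < y := by linarith
  have hys : (l ++ [a, y]).Pairwise (· < ·) := by
    rw [List.pairwise_append] at hl ⊢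
    obtain ⟨g1, g2, g3⟩ := hl
    refine ⟨g1, ?_, ?_⟩
    · simp [hay]
    · intro x hx z hz
      have hxa : x < a := g3 x hx a (by simp)
      simp only [List.mem_cons, List.not_mem_nil, or_false] at hz
      rcases hz with rfl | rfl
      · exact hxa
      · exact hxa.trans hay
  have h4 : ∀ M : ℕ, 1 ≤ M → 2 * (y - a) ≤ M →
      δ * Real.exp (-2) / 2 / (y - a) ^ 2 ≤ pf (K1 M) (l ++ [a, y]) := by
    intro M hM hM2
    have h5 : Tendsto (fun N : ℕ => pf (KE (SM M N) (fun s => s / M)) (l ++ [a, y])) atTop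
        (𝓝 (pf (K1 M) (l ++ [a, y]))) := by
      apply p_TK ℝ (fun N => KE (SM M N) (fun s => s / M)) (K1 M) (l ++ [a, y])
      exact hys.imp fun {a b} hab => hA M hM a b hab
    refine ge_of_tendsto h5 ?_
    filter_upwards [eventually_ge_atTop (2 * M)] with N hN
    have h6 := hlb (SM M N) (fun s => s / M) (hpos M N hM)
      (fun s hs => div_nonneg (hpos M N hM s hs).le (Nat.cast_nonneg M)) (hC M N hM hN) y hay
    have h7 := h2 a y M N (by linarith) hM2 hN
    have h8 : δ * Real.exp (-2) / 2 / (y - a) ^ 2 =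
        δ * (Real.exp (-2) / (2 * (y - a) ^ 2)) := by
      have : (y - a) ≠ 0 := by linarith
      field_simp
    rw [h8]
    exact (mul_le_mul_of_nonneg_left h7 hδ.le).trans h6
  have h6 : Tendsto (fun M : ℕ => pf (K1 M) (l ++ [a, y])) atTop
      (𝓝 (pf (fun a b => ((b - a) ^ 2)⁻¹) (l ++ [a, y]))) := by
    apply p_TK ℝ K1 (fun a b => ((b - a) ^ 2)⁻¹) (l ++ [a, y])
    exact hys.imp fun {a b} hab => hB (b - a) (sub_pos.2 hab)
  refine ge_of_tendsto h6 ?_
  obtain ⟨M0, hM0⟩ := exists_nat_ge (2 * (y - a))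
  filter_upwards [eventually_ge_atTop 1, eventually_ge_atTop M0] with M hM hM2
  have : (M0 : ℝ) ≤ M := by exact_mod_cast hM2
  exact h4 M hM (by linarith)

end Pool.Agent.Lib.MP_c28bf6_an.LC
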