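import Pool.Agent.Lib.MP_c28bf6_an.LC.Stm2

/-!
# Piece SUB: charges that vanish on some bodies
-/

set_option autoImplicit false

namespace Pool.Agent.Lib.MP_c28bf6_an.LC

theorem QSUB_range {E : Type} {n : ℕ} (X : ZMod n → E) (F : Finset (ZMod n)) :
    Set.range (fun i : {i // i ∉ F} => X i) = X '' {i | i ∉ F} := by
  ext x
  constructor
  · rintro ⟨i, rfl⟩
    exact ⟨i, i.2, rfl⟩
  · rintro ⟨i, hi, rfl⟩
    exact ⟨⟨i, hi⟩, rfl⟩

theorem QSUB_card {n : ℕ} [NeZero n] (F : Finset (ZMod n)) :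
    Fintype.card {i // i ∉ F} = n - F.card := by
  rw [Fintype.card_subtype, Finset.filter_not, Finset.card_sdiff_of_subset (Finset.filter_subset _ _),
    Finset.card_univ, ZMod.card]
  congr 2
  ext i
  simp

theorem QSUB_eq {E : Type} [NormedAddCommGroup E] [InnerProductSpace ℝ E] {n : ℕ} [NeZero n]
    {W : Submodule ℝ (ZMod n → ℝ)} {X : ZMod n → E} (hS : Sys E n W X)
    (F : Finset (ZMod n)) {w : ZMod n → ℝ} (hw : w ∈ W) (h0 : ∀ i ∈ F, w i = 0)
    (i : {i // i ∉ F}) : ∑ j : {i // i ∉ F}, w j • force (X j - X i) = 0 := by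
  rw [← hS.eq w hw i]
  rw [← Finset.sum_subset (Finset.subset_univ (Finset.univ.filter fun j => j ∉ F))]
  · exact (Finset.sum_subtype (Finset.univ.filter fun j => j ∉ F) (by simp)
      (fun j => w j • force (X j - X i))).symm
  · intro j _ hj
    have hj' : j ∈ F := by
      by_contra hc
      exact hj (by simp [hc])
    rw [h0 j hj', zero_smul]

theorem q_SUB (h1 : Q_CST) (h2 : Q_LST) : Q_SUB := by
  intro E _ _ n _ W X hS F w hw h0
  have hinj : Function.Injective (fun i : {i // i ∉ F} => X i) := fun i j h =>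
    Subtype.ext (hS.inj h)
  have hfin : (∀ i : {i // i ∉ F}, w i = 0) → w = 0 := by
    intro h
    funext i
    by_cases hi : i ∈ F
    · exact h0 i hi
    · exact h ⟨i, hi⟩
  refine ⟨fun hc hcard => ?_, fun hc => ⟨fun he => ?_, fun ho i hi hwi => ?_⟩⟩
  · apply hfin
    refine h1 E {i // i ∉ F} (fun i => X i) hinj (by rw [QSUB_range]; exact hc) ?_ (fun i => w i)
      (fun i => QSUB_eq hS F hw h0 i)
    rw [QSUB_card]
    omega
  · apply hfin
    refine (h2 E {i // i ∉ F} (fun i => X i) hinj (by rw [QSUB_range]; exact hc) (fun i => w i)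
      (fun i => QSUB_eq hS F hw h0 i)).1 ?_
    rwa [QSUB_card]
  · apply hfin
    refine (h2 E {i // i ∉ F} (fun i => X i) hinj (by rw [QSUB_range]; exact hc) (fun i => w i)
      (fun i => QSUB_eq hS F hw h0 i)).2 ?_ ⟨i, hi⟩ hwi
    rwa [QSUB_card]

end Pool.Agent.Lib.MP_c28bf6_an.LC
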