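import Pool.Agent.Lib.MP_c28bf6_an.LC.Stm2

/-!
# A lower bound with the last pair kept
-/

set_option autoImplicit false

namespace Pool.Agent.Lib.MP_c28bf6_an.LC

/-- the kernel with the large exponents removed -/
lemma QLB2_filter (L0 : ℝ) (S : Finset ℝ) (c : ℝ → ℝ) :
    KE S (fun s => if s ≤ L0 then c s else 0) = KE (S.filter (· ≤ L0)) c := by
  funext a b
  unfold KE
  rw [Finset.sum_filter]
  apply Finset.sum_congr rfl
  intro s _
  beta_reduce
  by_cases h : s ≤ L0
  · rw [if_pos h, if_pos h]
  · rw [if_neg h, if_neg h, zero_mul]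

/-- the kernel decreases if exponents are removed -/
lemma QLB2_le (L0 : ℝ) (S : Finset ℝ) (c : ℝ → ℝ) (hc : ∀ s ∈ S, 0 ≤ c s) (a y : ℝ) :
    KE (S.filter (· ≤ L0)) c a y ≤ KE S c a y := by
  unfold KE
  apply Finset.sum_le_sum_of_subset_of_nonneg (Finset.filter_subset _ _)
  intro s hs _
  exact mul_nonneg (hc s hs) (Real.exp_pos _).le

/-- the kernel is nonnegative -/
lemma QLB2_nonneg (S : Finset ℝ) (c : ℝ → ℝ) (hc : ∀ s ∈ S, 0 ≤ c s) (a y : ℝ) :
    0 ≤ KE S c a y := by
  unfold KE
  exact Finset.sum_nonneg fun s hs => mul_nonneg (hc s hs) (Real.exp_pos _).le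

/-- one more point on the right -/
lemma QLB2_pw (l : List ℝ) (a y : ℝ) (h : (l ++ [a]).Pairwise (· < ·)) (hy : a < y) :
    (l ++ [a, y]).Pairwise (· < ·) := by
  rw [List.pairwise_append] at h ⊢
  refine ⟨h.1, by simp [hy], ?_⟩
  intro x hx z hz
  have h1 : x < a := h.2.2 x hx a (by simp)
  simp only [List.mem_cons, List.not_mem_nil, or_false] at hz
  rcases hz with rfl | rfl
  · exact h1
  · exact h1.trans hy

theorem q_LB2 : Q_LB2 := by
  intro L0 l
  induction hn : l.length using Nat.strong_induction_on generalizing l with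
  | _ n ih =>
    intro a hys hev
    match l, hn, hys with
    | [], _, _ =>
      refine ⟨1, one_pos, fun S c _ hc _ y _ => ?_⟩
      rw [List.nil_append, pf_pair, one_mul]
      exact QLB2_le L0 S c hc a y
    | [z], hn, _ =>
      simp only [List.length_cons, List.length_nil] at hn
      rw [← hn] at hev
      exact absurd hev (by decide)
    | p :: q :: R, hn, hys =>
      simp only [List.length_cons] at hn
      simp only [List.cons_append] at hys
      have hR : (R ++ [a]).Pairwise (· < ·) :=
        (List.pairwise_cons.1 (List.pairwise_cons.1 hys).2).2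
      have hab : p < q := (List.pairwise_cons.1 hys).1 q List.mem_cons_self
      have hevR : Even R.length := by
        rw [← hn] at hev
        rw [Nat.even_iff] at hev ⊢
        omega
      obtain ⟨δ, hδ, hb⟩ := ih R.length (by omega) R rfl a hR hevR
      refine ⟨Real.exp (-(L0 * (q - p))) * δ, by positivity, ?_⟩
      intro S c hS hc hsum y hy
      have hys2 : (p :: q :: (R ++ [a, y])).Pairwise (· < ·) :=
        QLB2_pw (p :: q :: R) a y hys hy
      obtain ⟨S0, hS0⟩ : ∃ S0, S0 = S.filter (· ≤ L0) := ⟨_, rfl⟩
      have hS0pos : ∀ s ∈ S0, 0 < s := fun s hs => by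
        rw [hS0] at hs
        exact hS s (Finset.mem_filter.1 hs).1
      have hS0c : ∀ s ∈ S0, 0 ≤ c s := fun s hs => by
        rw [hS0] at hs
        exact hc s (Finset.mem_filter.1 hs).1
      have hne : S0.Nonempty := by
        rw [Finset.nonempty_iff_ne_empty]
        intro h0
        rw [← hS0, h0, Finset.sum_empty] at hsum
        linarith
      have e1 := ((t_POS S hS).1 c (fun s => if s ≤ L0 then c s else 0) (fun s hs => by
        by_cases hs' : s ≤ L0
        · simp only [if_pos hs']; exact hc s hs
        · simp only [if_neg hs']; exact le_rfl) (fun s hs => by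
        by_cases hs' : s ≤ L0
        · simp only [if_pos hs']; exact le_rfl
        · simp only [if_neg hs']; exact hc s hs) (p :: q :: (R ++ [a, y])) hys2).2
      rw [QLB2_filter, ← hS0] at e1
      rw [← hS0] at hsum ⊢
      refine le_trans ?_ e1
      have hmem := Finset.max'_mem S0 hne
      have hLle : S0.max' hne ≤ L0 := by
        have h5 : S0.max' hne ∈ S.filter (· ≤ L0) := by
          rw [← hS0]
          exact hmem
        exact (Finset.mem_filter.1 h5).2
      have e2 := (t_POS S0 hS0pos).2 (S0.max' hne) hmem (fun s hs => Finset.le_max' S0 s hs) c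
        hS0c p q (R ++ [a, y]) hys2
      refine le_trans ?_ e2
      have h6 : S0.filter (· ≤ L0) = S0 := by
        rw [hS0, Finset.filter_filter]
        congr 1
        funext s
        simp
      have e3 : δ * KE S0 c a y ≤ pf (KE S0 c) (R ++ [a, y]) := by
        have := hb S0 c hS0pos hS0c (by rw [h6]; exact hsum) y hy
        rwa [h6] at this
      have hK : 0 ≤ KE S0 c a y := QLB2_nonneg S0 c hS0c a y
      have e4 : Real.exp (-(L0 * (q - p))) ≤ Real.exp (-(S0.max' hne * (q - p))) := by
        apply Real.exp_le_exp.2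
        have : S0.max' hne * (q - p) ≤ L0 * (q - p) :=
          mul_le_mul_of_nonneg_right hLle (by linarith)
        linarith
      have e5 : 0 < Real.exp (-(S0.max' hne * (q - p))) := Real.exp_pos _
      have hδK : 0 ≤ δ * KE S0 c a y := mul_nonneg hδ.le hK
      calc Real.exp (-(L0 * (q - p))) * δ * KE S0 c a y
          = Real.exp (-(L0 * (q - p))) * (δ * KE S0 c a y) := mul_assoc _ _ _
        _ ≤ Real.exp (-(S0.max' hne * (q - p))) * (δ * KE S0 c a y) :=
            mul_le_mul_of_nonneg_right e4 hδK
        _ ≤ Real.exp (-(S0.max' hne * (q - p))) * (∑ s ∈ S0, c s) * (δ * KE S0 c a y) := by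
            apply mul_le_mul_of_nonneg_right _ hδK
            nlinarith
        _ ≤ Real.exp (-(S0.max' hne * (q - p))) * (∑ s ∈ S0, c s) *
              pf (KE S0 c) (R ++ [a, y]) := by
            apply mul_le_mul_of_nonneg_left e3
            have : 0 ≤ ∑ s ∈ S0, c s := by linarith
            positivity

end Pool.Agent.Lib.MP_c28bf6_an.LC
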