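import Pool.Agent.Lib.MP_c28bf6_an.LC.Stm2

set_option autoImplicit false

namespace Pool.Agent.Lib.MP_c28bf6_an.LC

theorem QOC_one (n : ℕ) [NeZero n] (hn : n = 1) (w : ZMod n → ℝ) (hs : ∑ j, w j = 0) : w = 0 := by
  subst hn
  funext j
  have hj : ∀ i : ZMod 1, i = 0 := fun i => Subsingleton.elim _ _
  rw [Fintype.sum_eq_single (0 : ZMod 1) (fun x hx => absurd (hj x) hx)] at hs
  rw [hj j]
  simpa using hs

theorem q_OC (h1 : Q_EXZ) (h2 : Q_SUB) : Q_OC := by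
  intro E _ _ n _ W X hS hodd k hc w hw
  by_contra hne
  have hn0 : n ≠ 0 := NeZero.ne n
  by_cases hn1 : n = 1
  · exact hne (QOC_one n hn1 w (hS.sum w hw))
  · have hn3 : 3 ≤ n := by
      obtain ⟨m, hm⟩ := hodd
      omega
    obtain ⟨-, h1b⟩ := h1 E n W X hS
    obtain ⟨h1c, -⟩ := h1b hodd ⟨w, hw, hne⟩
    obtain ⟨v, hv, hv0, hvk⟩ := h1c k
    have hset : X '' {i | i ∉ ({k} : Finset (ZMod n))} = X '' {i | i ≠ k} := by
      simp
    obtain ⟨h2a, -⟩ := h2 E n W X hS {k} v hv (by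
      intro i hi
      rw [Finset.mem_singleton] at hi
      rw [hi]; exact hvk)
    refine hv0 (h2a ?_ ?_)
    · rw [hset]; exact hc
    · simpa using hn3

end Pool.Agent.Lib.MP_c28bf6_an.LC
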